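import Pool.Agent.X238.DW.Stm

/-! Part ST2 of project DW: one step in the damping. -/

namespace Pool.Agent.X55.DW.ST2

open MeasureTheory Set Filter Topology Pool.Agent.X238.DW

theorem wpos {x : ℝ} (hx : 0 ≤ x) : 0 ≤ 1 + (x - 1) * Real.exp x := by
  have h1 := Real.add_one_le_exp (-x)
  have h2 : Real.exp (-x) * Real.exp x = 1 := by rw [← Real.exp_add]; simp
  nlinarith [Real.exp_pos x]

/-- the weight -/
noncomputable def om (c r : ℝ) : ℝ := (c * r / 2 - 1) * Real.exp (c * r / 2)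

theorem om_cont (c : ℝ) : Continuous (om c) := by unfold om; fun_prop

variable {E : Type*} [NormedAddCommGroup E] [NormedSpace ℝ E]

theorem int_exp {γ : ℝ} (hγ : 0 < γ) (C : ℝ) :
    IntegrableOn (fun s : ℝ => C * Real.exp (-(γ * s))) (Ioi 0) := by
  have h : IntegrableOn (fun s : ℝ => C * Real.exp (-γ * s)) (Ioi 0) :=
    (exp_neg_integrableOn_Ioi 0 hγ).const_mul C
  simpa only [neg_mul] using h

omit [NormedSpace ℝ E] in
theorem int_g {γ C : ℝ} (hγ : 0 < γ) {g : ℝ → E} (hg : Continuous g)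
    (hb : ∀ s : ℝ, 0 ≤ s → ‖g s‖ ≤ C * Real.exp (-(γ * s))) : IntegrableOn g (Ioi 0) := by
  refine Integrable.mono' (int_exp hγ C) hg.aestronglyMeasurable ?_
  exact (ae_restrict_iff' measurableSet_Ioi).2 (ae_of_all _ fun s hs => hb s (le_of_lt hs))

theorem Kbound {c : ℝ} (hc : 0 < c) {g : ℝ → E} (hg : Continuous g) (hi : IntegrableOn g (Ioi 0))
    (h0 : ∫ s in Ioi (0 : ℝ), g s = 0) {s : ℝ} (hs : 0 ≤ s) :
    ‖∫ r in (0 : ℝ)..s, om c r • g r‖
      ≤ (∫ r in Ioi (0 : ℝ), ‖g r‖) + ∫ r in (0 : ℝ)..s, om c r * ‖g r‖ := by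
  have his : IntegrableOn g (Ioi s) := hi.mono_set (Ioi_subset_Ioi hs)
  have e1 : (∫ r in (0 : ℝ)..s, g r) + ∫ r in Ioi s, g r = 0 := by
    rw [intervalIntegral.integral_interval_add_Ioi hi his, h0]
  have e1' : (∫ r in (0 : ℝ)..s, ‖g r‖) + ∫ r in Ioi s, ‖g r‖ = ∫ r in Ioi (0 : ℝ), ‖g r‖ :=
    intervalIntegral.integral_interval_add_Ioi hi.norm his.norm
  have c1 : Continuous (fun r => om c r • g r) := (om_cont c).smul hg
  have c2 : Continuous (fun r => om c r * ‖g r‖) := (om_cont c).mul hg.norm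
  have e2 : ∫ r in (0 : ℝ)..s, (1 + om c r) • g r
      = (∫ r in (0 : ℝ)..s, g r) + ∫ r in (0 : ℝ)..s, om c r • g r := by
    rw [← intervalIntegral.integral_add (hg.intervalIntegrable _ _) (c1.intervalIntegrable _ _)]
    simp only [add_smul, one_smul]
  have e3 : ∫ r in (0 : ℝ)..s, (1 + om c r) * ‖g r‖
      = (∫ r in (0 : ℝ)..s, ‖g r‖) + ∫ r in (0 : ℝ)..s, om c r * ‖g r‖ := by
    rw [← intervalIntegral.integral_add (hg.norm.intervalIntegrable _ _)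
      (c2.intervalIntegrable _ _)]
    simp only [add_mul, one_mul]
  have e4 : ∫ r in (0 : ℝ)..s, om c r • g r
      = (∫ r in (0 : ℝ)..s, (1 + om c r) • g r) + ∫ r in Ioi s, g r := by
    rw [e2]
    have : ∫ r in Ioi s, g r = - ∫ r in (0 : ℝ)..s, g r := by
      rw [← sub_eq_zero, sub_neg_eq_add, add_comm, e1]
    rw [this]
    abel
  have n1 : ‖∫ r in (0 : ℝ)..s, (1 + om c r) • g r‖ ≤ ∫ r in (0 : ℝ)..s, (1 + om c r) * ‖g r‖ := by
    apply intervalIntegral.norm_integral_le_of_norm_le hs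
    · refine ae_of_all _ fun r hr => ?_
      rw [norm_smul, Real.norm_eq_abs, abs_of_nonneg]
      exact wpos (by have := hr.1; positivity)
    · exact ((continuous_const.add (om_cont c)).mul hg.norm).intervalIntegrable _ _
  have n2 : ‖∫ r in Ioi s, g r‖ ≤ ∫ r in Ioi s, ‖g r‖ := norm_integral_le_integral_norm _
  calc ‖∫ r in (0 : ℝ)..s, om c r • g r‖
      ≤ ‖∫ r in (0 : ℝ)..s, (1 + om c r) • g r‖ + ‖∫ r in Ioi s, g r‖ := by
        rw [e4]; exact norm_add_le _ _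
    _ ≤ (∫ r in (0 : ℝ)..s, (1 + om c r) * ‖g r‖) + ∫ r in Ioi s, ‖g r‖ := add_le_add n1 n2
    _ = _ := by rw [e3, ← e1']; ring

theorem Kpos {c : ℝ} (hc : 0 < c) {g : ℝ → E} (hg : Continuous g) (hi : IntegrableOn g (Ioi 0))
    (h0 : ∫ s in Ioi (0 : ℝ), g s = 0) {s : ℝ} (hs : 0 ≤ s) :
    0 ≤ (∫ r in Ioi (0 : ℝ), ‖g r‖) + ∫ r in (0 : ℝ)..s, om c r * ‖g r‖ :=
  (norm_nonneg _).trans (Kbound hc hg hi h0 hs)

theorem pt {γ C c h : ℝ} (hγ : 0 < γ) (hC : 0 ≤ C) (hc : 0 < c) (hh : 0 ≤ h) {g g' : ℝ → E}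
    (hg : Continuous g)
    (h0 : ∫ s in Ioi (0 : ℝ), g s = 0)
    (hb : ∀ s : ℝ, 0 ≤ s → ‖g s‖ ≤ C * Real.exp (-(γ * s)))
    (hY : ∀ s : ℝ, 0 ≤ s → ‖g' s - g s - h • YY c g s‖ ≤ C * h ^ 2 * Real.exp (-(γ * s)))
    {s : ℝ} (hs : 0 ≤ s) :
    ‖g' s‖ ≤ ‖g s‖ - h / c * ‖g s‖ + h * (Real.exp (-(c * s / 2)) / 2 *
        ((∫ r in Ioi (0 : ℝ), ‖g r‖) + ∫ r in (0 : ℝ)..s, om c r * ‖g r‖)
        - s / 2 * ‖g s‖ + 1 / c * ‖g s‖)
      + h ^ 2 * ((C / γ ^ 2 + C) * Real.exp (-(γ / 2 * s))) := by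
  have hi := int_g hγ hg hb
  have hK := Kbound hc hg hi h0 hs
  have hsplit : g' s = (g' s - g s - h • YY c g s) + ((1 - h * s / 2) • g s
      + (h * (Real.exp (-(c * s / 2)) / 2)) • ∫ r in (0 : ℝ)..s, om c r • g r) := by
    have : YY c g s = (-(s / 2)) • g s + (Real.exp (-(c * s / 2)) / 2) •
      ∫ r in (0 : ℝ)..s, om c r • g r := rfl
    rw [this]
    module
  have hep : 0 ≤ Real.exp (-(c * s / 2)) / 2 := by positivity
  have n1 : ‖g' s‖ ≤ C * h ^ 2 * Real.exp (-(γ * s)) + (|1 - h * s / 2| * ‖g s‖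
      + h * (Real.exp (-(c * s / 2)) / 2) * ((∫ r in Ioi (0 : ℝ), ‖g r‖)
        + ∫ r in (0 : ℝ)..s, om c r * ‖g r‖)) := by
    rw [hsplit]
    refine (norm_add_le _ _).trans (add_le_add (hY s hs) ((norm_add_le _ _).trans
      (add_le_add ?_ ?_)))
    · rw [norm_smul, Real.norm_eq_abs]
    · rw [norm_smul, Real.norm_eq_abs, abs_of_nonneg (mul_nonneg hh hep)]
      exact mul_le_mul_of_nonneg_left hK (mul_nonneg hh hep)
  have n2 : |1 - h * s / 2| ≤ 1 - h * s / 2 + h ^ 2 * s ^ 2 / 8 := by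
    rw [abs_le]
    constructor
    · nlinarith [sq_nonneg (h * s - 4), mul_nonneg hh hs]
    · nlinarith [sq_nonneg (h * s)]
  have q := Real.quadratic_le_exp_of_nonneg (x := γ / 2 * s) (by positivity)
  have e1 : Real.exp (-(γ * s)) = Real.exp (-(γ / 2 * s)) * Real.exp (-(γ / 2 * s)) := by
    rw [← Real.exp_add]; congr 1; ring
  have e2 : Real.exp (γ / 2 * s) * Real.exp (-(γ / 2 * s)) = 1 := by
    rw [← Real.exp_add]; simp
  have e3 : Real.exp (-(γ / 2 * s)) ≤ 1 := by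
    rw [Real.exp_le_one_iff]
    have : 0 ≤ γ / 2 * s := by positivity
    linarith
  have e4 := Real.exp_pos (-(γ / 2 * s))
  have n3 : s ^ 2 * Real.exp (-(γ * s)) ≤ 8 / γ ^ 2 * Real.exp (-(γ / 2 * s)) := by
    have a1 : s ^ 2 ≤ 8 / γ ^ 2 * Real.exp (γ / 2 * s) := by
      rw [div_mul_eq_mul_div, le_div_iff₀ (by positivity)]
      have : 0 ≤ γ / 2 * s := by positivity
      nlinarith
    calc s ^ 2 * Real.exp (-(γ * s)) = s ^ 2 * (Real.exp (-(γ / 2 * s))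
          * Real.exp (-(γ / 2 * s))) := by rw [e1]
      _ ≤ 8 / γ ^ 2 * Real.exp (γ / 2 * s) * (Real.exp (-(γ / 2 * s))
          * Real.exp (-(γ / 2 * s))) := mul_le_mul_of_nonneg_right a1 (by positivity)
      _ = 8 / γ ^ 2 * (Real.exp (γ / 2 * s) * Real.exp (-(γ / 2 * s)))
          * Real.exp (-(γ / 2 * s)) := by ring
      _ = _ := by rw [e2]; ring
  have n4 : s ^ 2 * ‖g s‖ ≤ C * (8 / γ ^ 2 * Real.exp (-(γ / 2 * s))) := by
    calc s ^ 2 * ‖g s‖ ≤ s ^ 2 * (C * Real.exp (-(γ * s))) :=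
          mul_le_mul_of_nonneg_left (hb s hs) (by positivity)
      _ = C * (s ^ 2 * Real.exp (-(γ * s))) := by ring
      _ ≤ _ := mul_le_mul_of_nonneg_left n3 hC
  have n5 : Real.exp (-(γ * s)) ≤ Real.exp (-(γ / 2 * s)) := by
    rw [e1]; nlinarith
  have n6 : |1 - h * s / 2| * ‖g s‖ ≤ (1 - h * s / 2) * ‖g s‖
      + h ^ 2 * (C / γ ^ 2 * Real.exp (-(γ / 2 * s))) := by
    calc |1 - h * s / 2| * ‖g s‖ ≤ (1 - h * s / 2 + h ^ 2 * s ^ 2 / 8) * ‖g s‖ :=
          mul_le_mul_of_nonneg_right n2 (norm_nonneg _)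
      _ = (1 - h * s / 2) * ‖g s‖ + h ^ 2 / 8 * (s ^ 2 * ‖g s‖) := by ring
      _ ≤ (1 - h * s / 2) * ‖g s‖ + h ^ 2 / 8 * (C * (8 / γ ^ 2
          * Real.exp (-(γ / 2 * s)))) := by
          gcongr
      _ = _ := by ring
  have n7 : C * h ^ 2 * Real.exp (-(γ * s)) ≤ h ^ 2 * (C * Real.exp (-(γ / 2 * s))) := by
    calc C * h ^ 2 * Real.exp (-(γ * s)) ≤ C * h ^ 2 * Real.exp (-(γ / 2 * s)) :=
          mul_le_mul_of_nonneg_left n5 (by positivity)
      _ = _ := by ring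
  have e5 : h / c * ‖g s‖ = h * (1 / c * ‖g s‖) := by ring
  rw [e5]
  linarith

theorem t_ST2 : S_ST2 := by
  intro n γ C hγ hC
  refine ⟨∫ s in Ioi (0 : ℝ), (C / γ ^ 2 + C) * Real.exp (-(γ / 2 * s)), ?_⟩
  intro c h hc hh g g' hg hg' h0 hb hY
  have hi := int_g hγ hg hb
  have hw := int_exp (half_pos hγ) (C / γ ^ 2 + C)
  have hw0 : ∀ s : ℝ, 0 ≤ (C / γ ^ 2 + C) * Real.exp (-(γ / 2 * s)) := fun s => by positivity
  set W := ∫ s in Ioi (0 : ℝ), (C / γ ^ 2 + C) * Real.exp (-(γ / 2 * s)) with hW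
  have hW0 : 0 ≤ W := integral_nonneg fun s => hw0 s
  set Gi := ∫ r in Ioi (0 : ℝ), ‖g r‖ with hGi
  have hGi0 : 0 ≤ Gi := integral_nonneg fun s => norm_nonneg _
  by_cases hint : IntegrableOn (fun s => ‖g' s‖) (Ioi 0)
  swap
  · rw [integral_undef hint]
    positivity
  have c2 : Continuous (fun r => om c r * ‖g r‖) := (om_cont c).mul hg.norm
  set K : ℝ → ℝ := fun s => ∫ r in (0 : ℝ)..s, om c r * ‖g r‖ with hK
  have hKd : ∀ s, HasDerivAt K (om c s * ‖g s‖) s := fun s =>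
    (c2.integral_hasStrictDerivAt 0 s).hasDerivAt
  have hKc : Continuous K := continuous_iff_continuousAt.2 fun s => (hKd s).continuousAt
  set D : ℝ → ℝ := fun s => Real.exp (-(c * s / 2)) / 2 * (Gi + K s) - s / 2 * ‖g s‖
    + 1 / c * ‖g s‖ with hD
  have hDc : Continuous D := by
    rw [hD]
    have := hg.norm
    fun_prop
  have hPd : ∀ s, HasDerivAt (fun s => -(1 / c) * (Real.exp (-(c * s / 2)) * (Gi + K s))) (D s)
      s := by
    intro s
    have d1 : HasDerivAt (fun s : ℝ => -(c * s / 2)) (-(c / 2)) s := by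
      have h := (((hasDerivAt_id' s).const_mul c).div_const 2).fun_neg
      rw [mul_one] at h
      exact h
    have d2 : HasDerivAt (fun s => -(1 / c) * (Real.exp (-(c * s / 2)) * (Gi + K s)))
        (-(1 / c) * (Real.exp (-(c * s / 2)) * -(c / 2) * (Gi + K s)
          + Real.exp (-(c * s / 2)) * (om c s * ‖g s‖))) s :=
      ((d1.exp.mul ((hKd s).const_add Gi)).const_mul (-(1 / c)))
    refine d2.congr_deriv ?_
    change _ = Real.exp (-(c * s / 2)) / 2 * (Gi + K s) - s / 2 * ‖g s‖ + 1 / c * ‖g s‖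
    rw [om]
    have e : Real.exp (-(c * s / 2)) * Real.exp (c * s / 2) = 1 := by
      rw [← Real.exp_add]; simp
    have hc' := hc.ne'
    have : Real.exp (-(c * s / 2)) * ((c * s / 2 - 1) * Real.exp (c * s / 2) * ‖g s‖)
        = (c * s / 2 - 1) * ‖g s‖ := by
      calc _ = (Real.exp (-(c * s / 2)) * Real.exp (c * s / 2)) * ((c * s / 2 - 1) * ‖g s‖) := by
            ring
        _ = _ := by rw [e, one_mul]
    rw [this]
    field_simp
    ring
  have hstep : ∀ T : ℝ, 0 ≤ T → ∫ s in (0 : ℝ)..T, ‖g' s‖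
      ≤ (∫ s in (0 : ℝ)..T, ‖g s‖) + h / c * (Gi - ∫ s in (0 : ℝ)..T, ‖g s‖) + h ^ 2 * W := by
    intro T hT
    have i1 : IntervalIntegrable (fun s => ‖g s‖) volume 0 T := hg.norm.intervalIntegrable _ _
    have i2 : IntervalIntegrable D volume 0 T := hDc.intervalIntegrable _ _
    have cw : Continuous (fun s : ℝ => (C / γ ^ 2 + C) * Real.exp (-(γ / 2 * s))) := by fun_prop
    have i3 : IntervalIntegrable (fun s : ℝ => (C / γ ^ 2 + C) * Real.exp (-(γ / 2 * s))) volume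
      0 T := cw.intervalIntegrable _ _
    have m1 : ∫ s in (0 : ℝ)..T, ‖g' s‖ ≤ ∫ s in (0 : ℝ)..T, (‖g s‖ - h / c * ‖g s‖ + h * D s
        + h ^ 2 * ((C / γ ^ 2 + C) * Real.exp (-(γ / 2 * s)))) := by
      apply intervalIntegral.integral_mono_on hT (hg'.norm.intervalIntegrable _ _)
      · exact (((i1.sub (i1.const_mul _)).add (i2.const_mul _)).add (i3.const_mul _))
      · intro s hs
        exact pt hγ hC hc hh hg h0 hb hY hs.1
    have m2 : ∫ s in (0 : ℝ)..T, (‖g s‖ - h / c * ‖g s‖ + h * D s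
        + h ^ 2 * ((C / γ ^ 2 + C) * Real.exp (-(γ / 2 * s))))
        = (∫ s in (0 : ℝ)..T, ‖g s‖) - h / c * (∫ s in (0 : ℝ)..T, ‖g s‖)
          + h * (∫ s in (0 : ℝ)..T, D s)
          + h ^ 2 * ∫ s in (0 : ℝ)..T, (C / γ ^ 2 + C) * Real.exp (-(γ / 2 * s)) := by
      rw [intervalIntegral.integral_add ((i1.sub (i1.const_mul _)).add (i2.const_mul _))
        (i3.const_mul _), intervalIntegral.integral_add (i1.sub (i1.const_mul _))
        (i2.const_mul _), intervalIntegral.integral_sub i1 (i1.const_mul _),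
        intervalIntegral.integral_const_mul, intervalIntegral.integral_const_mul,
        intervalIntegral.integral_const_mul]
    have m3 : ∫ s in (0 : ℝ)..T, D s = -(1 / c) * (Real.exp (-(c * T / 2)) * (Gi + K T))
        - -(1 / c) * (Real.exp (-(c * 0 / 2)) * (Gi + K 0)) :=
      intervalIntegral.integral_eq_sub_of_hasDerivAt (fun s _ => hPd s) i2
    have m4 : K 0 = 0 := by simp [hK]
    have m5 : 0 ≤ Real.exp (-(c * T / 2)) * (Gi + K T) :=
      mul_nonneg (Real.exp_pos _).le (Kpos hc hg hi h0 hT)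
    have m6 : ∫ s in (0 : ℝ)..T, D s ≤ 1 / c * Gi := by
      rw [m3, m4]
      have : 0 ≤ 1 / c * (Real.exp (-(c * T / 2)) * (Gi + K T)) := by positivity
      simp only [mul_zero, zero_div, neg_zero, Real.exp_zero, one_mul, add_zero]
      linarith
    have m7 : ∫ s in (0 : ℝ)..T, (C / γ ^ 2 + C) * Real.exp (-(γ / 2 * s)) ≤ W := by
      rw [intervalIntegral.integral_of_le hT, hW]
      exact setIntegral_mono_set hw (ae_of_all _ hw0)
        (LE.le.eventuallyLE Ioc_subset_Ioi_self)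
    calc ∫ s in (0 : ℝ)..T, ‖g' s‖ ≤ _ := m1
      _ = _ := m2
      _ ≤ (∫ s in (0 : ℝ)..T, ‖g s‖) - h / c * (∫ s in (0 : ℝ)..T, ‖g s‖)
          + h * (1 / c * Gi) + h ^ 2 * W := by
          gcongr
      _ = _ := by ring
  have t1 : Tendsto (fun T : ℝ => ∫ s in (0 : ℝ)..T, ‖g' s‖) atTop
      (𝓝 (∫ s in Ioi (0 : ℝ), ‖g' s‖)) := intervalIntegral_tendsto_integral_Ioi 0 hint tendsto_id
  have t2 : Tendsto (fun T : ℝ => ∫ s in (0 : ℝ)..T, ‖g s‖) atTop (𝓝 Gi) :=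
    intervalIntegral_tendsto_integral_Ioi 0 hi.norm tendsto_id
  have t3 : Tendsto (fun T : ℝ => (∫ s in (0 : ℝ)..T, ‖g s‖)
      + h / c * (Gi - ∫ s in (0 : ℝ)..T, ‖g s‖) + h ^ 2 * W) atTop
      (𝓝 (Gi + h / c * (Gi - Gi) + h ^ 2 * W)) :=
    (t2.add ((tendsto_const_nhds.sub t2).const_mul _)).add tendsto_const_nhds
  have := le_of_tendsto_of_tendsto t1 t3 ((eventually_ge_atTop 0).mono hstep)
  rw [sub_self, mul_zero, add_zero] at this
  linarith

end Pool.Agent.X55.DW.ST2
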